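import Pool.Agent.TH281.HB.Main

namespace Pool.Agent.Results.MP_93c42a_an.AllInfiniteDimensional

universe u

/-- The closed unit ball of every infinite-dimensional real normed space `X` (complete or not) has
property (H): for each `α` in `(0,1)` there is a self-map `T` of the closed unit ball without fixed
points, all of whose iterates `T^[n]`, `n ≥ 1`, satisfy `‖T^[n] x - T^[n] y‖ ≤ ‖x - y‖ ^ α`, and
whose minimal displacement is `0`. -/
theorem result (X : Type u) [NormedAddCommGroup X] [NormedSpace ℝ X]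
    (hX : ¬ FiniteDimensional ℝ X) (α : ℝ) (hα0 : 0 < α) (hα1 : α < 1) :
    ∃ T : Metric.closedBall (0 : X) 1 → Metric.closedBall (0 : X) 1,
      (∀ n : ℕ, 1 ≤ n → ∀ x y : Metric.closedBall (0 : X) 1,
        ‖(T^[n] x : X) - (T^[n] y : X)‖ ≤ ‖(x : X) - (y : X)‖ ^ α) ∧
      (∀ x, T x ≠ x) ∧ (⨅ x : Metric.closedBall (0 : X) 1, ‖(x : X) - (T x : X)‖) = 0 :=
  Pool.Agent.TH281.HB.propertyH_of_infinite hX α hα0 hα1

end Pool.Agent.Results.MP_93c42a_an.AllInfiniteDimensional
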